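import Mathlib
import Pool.Agent.Q147.NullFinite

/-!
# MP_9624c8_gt : `∏ C_n^*` is not a countable union of Borel null-finite sets
-/

namespace Pool.Agent.Results.MP_9624c8_gt.NotBorelNullFiniteUnion

open MeasureTheory Pool.Agent.Q147.NF

/-- The closed set `A = ∏_{n ≥ 2} C_n^*` is not a countable union of Borel null-finite subsets of
`X = ∏_{n ≥ 2} C_n`, and not even covered by countably many such sets. -/
theorem result :
    (¬ ∃ B : ℕ → Set X0, (∀ i, MeasurableSet[borel X0] (B i) ∧ NullFinite (B i)) ∧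
      A0 = ⋃ i, B i) ∧
    (¬ ∃ B : ℕ → Set X0, (∀ i, MeasurableSet[borel X0] (B i) ∧ NullFinite (B i)) ∧
      A0 ⊆ ⋃ i, B i) := by
  constructor
  · rintro ⟨B, hB, h⟩
    exact not_covered B (fun i => (hB i).1) (fun i => (hB i).2) h.subset
  · rintro ⟨B, hB, h⟩
    exact not_covered B (fun i => (hB i).1) (fun i => (hB i).2) h

end Pool.Agent.Results.MP_9624c8_gt.NotBorelNullFiniteUnion
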